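import Pool.Agent.W2helper50.KA.Attack

/-!
# Counting, and the decoupling of two parties
-/

set_option autoImplicit false

namespace Pool.Agent.W2helper50.KB

open Finset Classical Pool.Agent.W2helper50.KA

/-- The number of elements with a property. -/
noncomputable def cnt {α : Type} [Fintype α] (P : α → Prop) : ℕ := (univ.filter P).card

section

variable {α β : Type} [Fintype α] [Fintype β]

theorem cnt_eq_sum (P : α → Prop) : cnt P = ∑ a, if P a then 1 else 0 := by
  rw [cnt, card_eq_sum_ones, sum_filter]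

theorem cnt_prod (P : α × β → Prop) : cnt P = ∑ a, cnt (fun b => P (a, b)) := by
  rw [cnt_eq_sum, Fintype.sum_prod_type]
  simp only [cnt_eq_sum]

theorem cnt_prod' (P : α × β → Prop) : cnt P = ∑ b, cnt (fun a => P (a, b)) := by
  rw [cnt_eq_sum, Fintype.sum_prod_type, sum_comm]
  simp only [cnt_eq_sum]

theorem cnt_mono {P Q : α → Prop} (h : ∀ a, P a → Q a) : cnt P ≤ cnt Q :=
  card_le_card (monotone_filter_right _ (fun a _ ha => h a ha))

theorem cnt_congr {P Q : α → Prop} (h : ∀ a, P a ↔ Q a) : cnt P = cnt Q := by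
  have : P = Q := funext fun a => propext (h a)
  rw [this]

theorem cnt_split (P Q : α → Prop) :
    cnt P = cnt (fun a => P a ∧ Q a) + cnt (fun a => P a ∧ ¬ Q a) := by
  rw [cnt_eq_sum, cnt_eq_sum, cnt_eq_sum, ← sum_add_distrib]
  apply sum_congr rfl
  intro a _
  by_cases h1 : P a <;> by_cases h2 : Q a <;> simp [h1, h2]

theorem cnt_false {P : α → Prop} (h : ∀ a, ¬ P a) : cnt P = 0 := by
  rw [cnt, card_eq_zero, filter_eq_empty_iff]
  intro a _
  exact h a

theorem cnt_le_card (P : α → Prop) : cnt P ≤ Fintype.card α := card_le_univ _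

theorem cnt_and_const (p : Prop) (P : α → Prop) :
    cnt (fun a => p ∧ P a) = if p then cnt P else 0 := by
  split_ifs with h
  · exact cnt_congr (fun a => by simp [h])
  · simp [cnt, h]

/-- The number of pairs. -/
theorem cnt_pair (P : α → Prop) (Q : β → Prop) :
    cnt (fun p : α × β => P p.1 ∧ Q p.2) = cnt P * cnt Q := by
  rw [cnt_prod, cnt_eq_sum P, sum_mul]
  apply sum_congr rfl
  intro a _
  change cnt (fun b => P a ∧ Q b) = _
  rw [cnt_and_const]
  split_ifs <;> simp

/-- Counting by the values of a function. -/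
theorem cnt_fiber {γ : Type} (key : α → γ) (S : Finset γ) (P : α → Prop)
    (hS : ∀ a, P a → key a ∈ S) : cnt P = ∑ t ∈ S, cnt (fun a => key a = t ∧ P a) := by
  rw [cnt, card_eq_sum_card_fiberwise (f := key) (t := S)
    (fun a ha => mem_coe.2 (hS a (mem_filter.1 (mem_coe.1 ha)).2))]
  apply sum_congr rfl
  intro t _
  rw [cnt, filter_filter]
  congr 1
  ext a
  simp [and_comm]

theorem cnt_equiv (e : α ≃ β) (P : β → Prop) : cnt (fun a => P (e a)) = cnt P := by
  rw [cnt_eq_sum, cnt_eq_sum]
  exact e.sum_comp (fun b => if P b then 1 else 0)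

end

section

variable {G : Type} [AddCommGroup G]

/-- Two parties with the subgroups `A` and `B` are independent given the knowledge `K`. -/
def Free (K A B : AddSubgroup G) : Prop := (K ⊓ A) ⊔ (K ⊓ B) = K

theorem Free.dec {K A B : AddSubgroup G} (h : Free K A B) {k : G} (hk : k ∈ K) :
    ∃ u ∈ K ⊓ A, k - u ∈ K ⊓ B := by
  rw [← (h : _ = K), AddSubgroup.mem_sup] at hk
  obtain ⟨u, hu, v, hv, rfl⟩ := hk
  exact ⟨u, hu, by rwa [add_sub_cancel_left]⟩

/-- The first part of an element. -/
noncomputable def part (K A B : AddSubgroup G) (k : G) : G :=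
  if h : ∃ u ∈ K ⊓ A, k - u ∈ K ⊓ B then h.choose else 0

theorem part_mem {K A B : AddSubgroup G} (h : Free K A B) {k : G} (hk : k ∈ K) :
    part K A B k ∈ K ⊓ A ∧ k - part K A B k ∈ K ⊓ B := by
  have h' := h.dec hk
  rw [part, dif_pos h']
  exact h'.choose_spec

/-- Decoupling: for two parties which are independent, one oracle is as good as two. -/
theorem decouple [Fintype G] (K : AddSubgroup G) (a b : G → AddSubgroup G) (P : G → G → Prop)
    (h0 : ∀ f g, P f g → f - g ∈ K) (h1 : ∀ f g, P f g → Free K (a f) (b g))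
    (h2 : ∀ f g, P f g → ∀ u ∈ K ⊓ a f, ∀ v ∈ K ⊓ b g,
      P (f + u) (g + v) ∧ a (f + u) = a f ∧ b (g + v) = b g) :
    cnt (fun f => P f f) * Nat.card K = cnt (fun p : G × G => P p.1 p.2) := by
  have hK : Nat.card K = cnt (fun k : G => k ∈ K) := by
    rw [cnt, ← Fintype.card_subtype, Nat.card_eq_fintype_card]
  rw [hK, ← cnt_pair, cnt, cnt]
  have key : ∀ f k, P f f → k ∈ K →
      P (f + part K (a f) (b f) k) (f - (k - part K (a f) (b f) k)) ∧
      a (f + part K (a f) (b f) k) = a f ∧ b (f - (k - part K (a f) (b f) k)) = b f := by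
    intro f k hf hk
    have h3 := part_mem (h1 f f hf) hk
    have h4 := h2 f f hf _ h3.1 _ (neg_mem h3.2)
    rw [← sub_eq_add_neg] at h4
    exact h4
  have key2 : ∀ f g, P f g →
      P (f - part K (a f) (b g) (f - g)) (f - part K (a f) (b g) (f - g)) ∧
      a (f - part K (a f) (b g) (f - g)) = a f ∧ b (f - part K (a f) (b g) (f - g)) = b g := by
    intro f g hfg
    have h3 := part_mem (h1 f g hfg) (h0 f g hfg)
    have h4 := h2 f g hfg _ (neg_mem h3.1) _ h3.2
    have e : g + (f - g - part K (a f) (b g) (f - g)) = f - part K (a f) (b g) (f - g) := by abel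
    rw [← sub_eq_add_neg, e] at h4
    exact h4
  refine card_nbij' (fun p => (p.1 + part K (a p.1) (b p.1) p.2,
      p.1 - (p.2 - part K (a p.1) (b p.1) p.2)))
    (fun p => (p.1 - part K (a p.1) (b p.2) (p.1 - p.2), p.1 - p.2)) ?_ ?_ ?_ ?_
  · rintro ⟨f, k⟩ h
    simp only [coe_filter, mem_univ, true_and, Set.mem_ofPred_eq] at h ⊢
    exact (key f k h.1 h.2).1
  · rintro ⟨f, g⟩ h
    simp only [coe_filter, mem_univ, true_and, Set.mem_ofPred_eq] at h ⊢
    exact ⟨(key2 f g h).1, h0 f g h⟩
  · rintro ⟨f, k⟩ h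
    simp only [coe_filter, mem_univ, true_and, Set.mem_ofPred_eq] at h
    obtain ⟨_, e1, e2⟩ := key f k h.1 h.2
    simp only [e1, e2, Prod.mk.injEq]
    have e3 : f + part K (a f) (b f) k - (f - (k - part K (a f) (b f) k)) = k := by abel
    rw [e3]
    exact ⟨by abel, rfl⟩
  · rintro ⟨f, g⟩ h
    simp only [coe_filter, mem_univ, true_and, Set.mem_ofPred_eq] at h
    obtain ⟨_, e1, e2⟩ := key2 f g h
    simp only [e1, e2, Prod.mk.injEq]
    constructor <;> abel

end

end Pool.Agent.W2helper50.KB
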