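import Pool.Agent.W2helper50.KB.Stage

/-!
# The analysis for fixed knowledge of Eve
-/

set_option autoImplicit false

namespace Pool.Agent.W2helper50.KB

open Finset Classical Pool.Agent.W2helper50.KA

variable {G H I RA RB C : Type} [AddCommGroup G] [AddCommGroup H] [Fintype G] [Fintype RA]
  [Fintype RB]

theorem cnt_cons {ev : I → G →+ H} {kn : List (I × H)} {f₀ : G} (h : Cons ev kn f₀) :
    cnt (Cons ev kn) = Nat.card (KN ev kn) := by
  have h1 : cnt (Cons ev kn) = cnt (fun g => g ∈ KN ev kn) := by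
    rw [← cnt_equiv (Equiv.addRight f₀) (Cons ev kn)]
    apply cnt_congr
    intro g
    rw [cons_iff h]
    simp
  rw [h1, cnt, ← Fintype.card_subtype, Nat.card_eq_fintype_card]

theorem card_KN_pos (ev : I → G →+ H) (kn : List (I × H)) : 0 < Nat.card (KN ev kn) :=
  Nat.card_pos

omit [Fintype G] in
theorem Free.symm {K A B : AddSubgroup G} (h : Free K A B) : Free K B A := by
  rw [Free, sup_comm]
  exact h

theorem fixed (ev : I → G →+ H) (kn₁ new : List (I × H)) (SA : RA → G → Prop)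
    (qa : RA → G → List I) (ct : RB → G → C) (qb : RB → G → List I) (β : RB → Bool)
    (qd : RA → G → C → List I) (dec : RA → G → C → Bool)
    (hA : ∀ r f g, g - f ∈ Ann ev (qa r f) → qa r g = qa r f ∧ (SA r g ↔ SA r f))
    (hB : ∀ s f g, g - f ∈ Ann ev (qb s f) → qb s g = qb s f ∧ ct s g = ct s f)
    (hD : ∀ r f g c, g - f ∈ Ann ev (qa r f ++ qd r f c) →
      qd r g c = qd r f c ∧ dec r g c = dec r f c)
    (c : C) (b : Bool) (f₀ : G) (h₀ : Cons ev (kn₁ ++ new) f₀) (D₁ D₂ h₁ h₂ : ℕ)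
    (hnew : new.length ≤ D₁) (hh₁ : ∀ W : List I, W.length ≤ D₁ → hits ev SA qa kn₁ W ≤ h₁)
    (hlen : ∀ r f, (qa r f ++ qd r f c).length ≤ D₂)
    (hh₂ : ∀ W : List I, W.length ≤ D₂ →
      hits ev (fun s f => ct s f = c) qb (kn₁ ++ new) W ≤ h₂)
    (hb : ∀ b' : Bool,
      cnt (fun p : RB × G => (Cons ev (kn₁ ++ new) p.2 ∧ ct p.1 p.2 = c) ∧ b ≠ β p.1) ≤
      cnt (fun p : RB × G => (Cons ev (kn₁ ++ new) p.2 ∧ ct p.1 p.2 = c) ∧ b' ≠ β p.1)) :
    cnt (fun p : RA × G => Cons ev kn₁ p.2 ∧ SA p.1 p.2) *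
      cnt (fun p : RB × G => (Cons ev (kn₁ ++ new) p.2 ∧ ct p.1 p.2 = c) ∧ b ≠ β p.1) ≤
    cnt (fun p : RA × RB × G => (Cons ev (kn₁ ++ new) p.2.2 ∧ ct p.2.1 p.2.2 = c) ∧
        SA p.1 p.2.2 ∧ dec p.1 p.2.2 c ≠ β p.2.1) * Nat.card (KN ev kn₁) +
      cnt (fun p : RA × G => Cons ev kn₁ p.2 ∧ SA p.1 p.2) * h₂ +
      h₁ * cnt (fun p : RB × G => (Cons ev (kn₁ ++ new) p.2 ∧ ct p.1 p.2 = c) ∧ b ≠ β p.1) := by
  obtain ⟨W, hW⟩ : ∃ W, W = new.map Prod.fst := ⟨_, rfl⟩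
  obtain ⟨kn₂, hkn₂⟩ : ∃ kn₂, kn₂ = kn₁ ++ new := ⟨_, rfl⟩
  rw [← hkn₂] at h₀ hh₂ hb ⊢
  have hK₂ : KN ev kn₂ = KN ev kn₁ ⊓ Ann ev W := by
    rw [hkn₂, KN_append, hW]
    rfl
  have hcons : ∀ f, Cons ev kn₂ f → Cons ev kn₁ f := fun f hf => by
    rw [hkn₂, cons_append] at hf
    exact hf.1
  -- the good members of the population of the first party
  have ha : cnt (fun p : RA × G => Cons ev kn₂ p.2 ∧ SA p.1 p.2 ∧
        Free (KN ev kn₁) (Ann ev (qa p.1 p.2)) (Ann ev W)) * Nat.card (KN ev kn₁) =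
      cnt (fun p : RA × G => Cons ev kn₁ p.2 ∧ SA p.1 p.2 ∧
        Free (KN ev kn₁) (Ann ev (qa p.1 p.2)) (Ann ev W)) * Nat.card (KN ev kn₂) := by
    rw [cnt_prod, cnt_prod, sum_mul, sum_mul]
    apply sum_congr rfl
    intro r _
    have h1 := decouple (KN ev kn₁) (fun f => Ann ev (qa r f)) (fun _ => Ann ev W)
      (fun f g => (Cons ev kn₁ f ∧ SA r f ∧ Free (KN ev kn₁) (Ann ev (qa r f)) (Ann ev W)) ∧
        Cons ev kn₂ g)
      (by
        intro f g h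
        exact (cons_iff (hcons g h.2) f).1 h.1.1)
      (by
        intro f g h
        exact h.1.2.2)
      (by
        intro f g h u hu v hv
        obtain ⟨h2, h3⟩ := hA r f (f + u) (by rw [add_sub_cancel_left]; exact hu.2)
        refine ⟨⟨⟨?_, ?_, ?_⟩, ?_⟩, ?_, rfl⟩
        · rw [cons_iff h.1.1, add_sub_cancel_left]
          exact hu.1
        · exact h3.2 h.1.2.1
        · rw [h2]
          exact h.1.2.2
        · rw [cons_iff h.2, add_sub_cancel_left, hK₂]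
          exact hv
        · rw [h2])
    have h1' := h1.trans (cnt_pair (fun f => Cons ev kn₁ f ∧ SA r f ∧
      Free (KN ev kn₁) (Ann ev (qa r f)) (Ann ev W)) (Cons ev kn₂))
    rw [cnt_cons h₀] at h1'
    refine Eq.trans ?_ h1'
    congr 1
    apply cnt_congr
    intro f
    constructor
    · rintro ⟨h2, h3, h4⟩
      exact ⟨⟨hcons f h2, h3, h4⟩, h2⟩
    · rintro ⟨⟨_, h3, h4⟩, h2⟩
      exact ⟨h2, h3, h4⟩
  -- the real executions
  have hb1 : cnt (fun p : (RA × G) × (RB × G) =>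
        (Cons ev kn₂ p.1.2 ∧ SA p.1.1 p.1.2 ∧
          Free (KN ev kn₁) (Ann ev (qa p.1.1 p.1.2)) (Ann ev W)) ∧
        ((Cons ev kn₂ p.2.2 ∧ ct p.2.1 p.2.2 = c) ∧
          Free (KN ev kn₂) (Ann ev (qa p.1.1 p.1.2 ++ qd p.1.1 p.1.2 c))
            (Ann ev (qb p.2.1 p.2.2)) ∧ dec p.1.1 p.1.2 c ≠ β p.2.1)) ≤
      cnt (fun p : RA × RB × G => (Cons ev kn₂ p.2.2 ∧ ct p.2.1 p.2.2 = c) ∧
        SA p.1 p.2.2 ∧ dec p.1 p.2.2 c ≠ β p.2.1) * Nat.card (KN ev kn₂) := by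
    have e1 : cnt (fun p : (RA × G) × (RB × G) =>
        (Cons ev kn₂ p.1.2 ∧ SA p.1.1 p.1.2 ∧
          Free (KN ev kn₁) (Ann ev (qa p.1.1 p.1.2)) (Ann ev W)) ∧
        ((Cons ev kn₂ p.2.2 ∧ ct p.2.1 p.2.2 = c) ∧
          Free (KN ev kn₂) (Ann ev (qa p.1.1 p.1.2 ++ qd p.1.1 p.1.2 c))
            (Ann ev (qb p.2.1 p.2.2)) ∧ dec p.1.1 p.1.2 c ≠ β p.2.1)) =
        ∑ r, ∑ s, cnt (fun p : G × G =>
        (Cons ev kn₂ p.1 ∧ SA r p.1 ∧ Free (KN ev kn₁) (Ann ev (qa r p.1)) (Ann ev W)) ∧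
        ((Cons ev kn₂ p.2 ∧ ct s p.2 = c) ∧
          Free (KN ev kn₂) (Ann ev (qa r p.1 ++ qd r p.1 c)) (Ann ev (qb s p.2)) ∧
          dec r p.1 c ≠ β s)) := by
      simp only [cnt_eq_sum, Fintype.sum_prod_type]
      apply sum_congr rfl
      intro r _
      rw [sum_comm]
    rw [e1, cnt_prod, sum_mul]
    apply sum_le_sum
    intro r _
    rw [cnt_prod, sum_mul]
    apply sum_le_sum
    intro s _
    rw [← decouple (KN ev kn₂) (fun f => Ann ev (qa r f ++ qd r f c)) (fun g => Ann ev (qb s g))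
      (fun f g => (Cons ev kn₂ f ∧ SA r f ∧ Free (KN ev kn₁) (Ann ev (qa r f)) (Ann ev W)) ∧
        ((Cons ev kn₂ g ∧ ct s g = c) ∧
          Free (KN ev kn₂) (Ann ev (qa r f ++ qd r f c)) (Ann ev (qb s g)) ∧
          dec r f c ≠ β s))
      (by
        intro f g h
        exact (cons_iff h.2.1.1 f).1 h.1.1)
      (by
        intro f g h
        exact h.2.2.1)
      (by
        intro f g h u hu v hv
        have hu' := hu.2
        rw [Ann_append] at hu'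
        obtain ⟨h2, h3⟩ := hA r f (f + u) (by rw [add_sub_cancel_left]; exact hu'.1)
        obtain ⟨h4, h5⟩ := hD r f (f + u) c (by rw [add_sub_cancel_left]; exact hu.2)
        obtain ⟨h6, h7⟩ := hB s g (g + v) (by rw [add_sub_cancel_left]; exact hv.2)
        refine ⟨⟨⟨?_, h3.2 h.1.2.1, ?_⟩, ⟨⟨?_, ?_⟩, ?_, ?_⟩⟩, ?_, ?_⟩
        · rw [cons_iff h.1.1, add_sub_cancel_left]
          exact hu.1
        · rw [h2]
          exact h.1.2.2
        · rw [cons_iff h.2.1.1, add_sub_cancel_left]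
          exact hv.1
        · rw [h7]
          exact h.2.1.2
        · rw [h2, h4, h6]
          exact h.2.2.1
        · rw [h5]
          exact h.2.2.2
        · rw [h2, h4]
        · rw [h6])]
    apply Nat.mul_le_mul_right
    apply cnt_mono
    intro f h
    exact ⟨h.2.1, h.1.2.1, h.2.2.2⟩
  -- every good member
  have hb2 : cnt (fun p : RA × G => Cons ev kn₂ p.2 ∧ SA p.1 p.2 ∧
        Free (KN ev kn₁) (Ann ev (qa p.1 p.2)) (Ann ev W)) *
        cnt (fun p : RB × G => (Cons ev kn₂ p.2 ∧ ct p.1 p.2 = c) ∧ b ≠ β p.1) ≤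
      cnt (fun p : (RA × G) × (RB × G) =>
        (Cons ev kn₂ p.1.2 ∧ SA p.1.1 p.1.2 ∧
          Free (KN ev kn₁) (Ann ev (qa p.1.1 p.1.2)) (Ann ev W)) ∧
        ((Cons ev kn₂ p.2.2 ∧ ct p.2.1 p.2.2 = c) ∧
          Free (KN ev kn₂) (Ann ev (qa p.1.1 p.1.2 ++ qd p.1.1 p.1.2 c))
            (Ann ev (qb p.2.1 p.2.2)) ∧ dec p.1.1 p.1.2 c ≠ β p.2.1)) +
      cnt (fun p : RA × G => Cons ev kn₂ p.2 ∧ SA p.1 p.2 ∧
        Free (KN ev kn₁) (Ann ev (qa p.1 p.2)) (Ann ev W)) * h₂ := by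
    rw [cnt_prod (fun p : (RA × G) × (RB × G) => _), cnt_eq_sum (fun p : RA × G => _), sum_mul,
      sum_mul, ← sum_add_distrib]
    apply sum_le_sum
    rintro ⟨r, f⟩ _
    dsimp only
    rw [cnt_and_const]
    split_ifs with hg
    · rw [one_mul, one_mul]
      refine (hb (dec r f c)).trans ?_
      rw [cnt_split _ (fun p : RB × G => Free (KN ev kn₂) (Ann ev (qa r f ++ qd r f c))
        (Ann ev (qb p.1 p.2)))]
      apply Nat.add_le_add
      · apply cnt_mono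
        rintro ⟨s, g⟩ h
        exact ⟨h.1.1, h.2, h.1.2⟩
      · refine le_trans (cnt_mono ?_) (hh₂ (qa r f ++ qd r f c) (hlen r f))
        rintro ⟨s, g⟩ h
        exact ⟨h.1.1.1, h.1.1.2, fun h' => h.2 h'.symm⟩
    · simp
  -- the good members are most of the members
  have hc : cnt (fun p : RA × G => Cons ev kn₁ p.2 ∧ SA p.1 p.2) ≤
      cnt (fun p : RA × G => Cons ev kn₁ p.2 ∧ SA p.1 p.2 ∧
        Free (KN ev kn₁) (Ann ev (qa p.1 p.2)) (Ann ev W)) + h₁ := by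
    rw [cnt_split _ (fun p : RA × G => Free (KN ev kn₁) (Ann ev (qa p.1 p.2)) (Ann ev W))]
    apply Nat.add_le_add
    · apply cnt_mono
      rintro ⟨r, f⟩ h
      exact ⟨h.1.1, h.1.2, h.2⟩
    · refine le_trans (cnt_mono ?_) (hh₁ W (by rw [hW, List.length_map]; exact hnew))
      rintro ⟨r, f⟩ h
      exact ⟨h.1.1, h.1.2, h.2⟩
  have hd : cnt (fun p : RA × G => Cons ev kn₁ p.2 ∧ SA p.1 p.2 ∧
        Free (KN ev kn₁) (Ann ev (qa p.1 p.2)) (Ann ev W)) ≤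
      cnt (fun p : RA × G => Cons ev kn₁ p.2 ∧ SA p.1 p.2) :=
    cnt_mono fun p h => ⟨h.1, h.2.1⟩
  have hK2pos := card_KN_pos ev kn₂
  generalize cnt (fun p : RA × G => Cons ev kn₂ p.2 ∧ SA p.1 p.2 ∧
        Free (KN ev kn₁) (Ann ev (qa p.1 p.2)) (Ann ev W)) = Γ at *
  generalize cnt (fun p : RA × G => Cons ev kn₁ p.2 ∧ SA p.1 p.2 ∧
        Free (KN ev kn₁) (Ann ev (qa p.1 p.2)) (Ann ev W)) = nA at *
  generalize cnt (fun p : RA × G => Cons ev kn₁ p.2 ∧ SA p.1 p.2) = n₁ at *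
  generalize cnt (fun p : RB × G => (Cons ev kn₂ p.2 ∧ ct p.1 p.2 = c) ∧ b ≠ β p.1) = w at *
  generalize cnt (fun p : RA × RB × G => (Cons ev kn₂ p.2.2 ∧ ct p.2.1 p.2.2 = c) ∧
        SA p.1 p.2.2 ∧ dec p.1 p.2.2 c ≠ β p.2.1) = RW at *
  generalize Nat.card (KN ev kn₁) = k₁ at *
  generalize Nat.card (KN ev kn₂) = k₂ at *
  have e1 : nA * w ≤ nA * h₂ + RW * k₁ := by
    have e2 : (nA * w) * k₂ ≤ (nA * h₂ + RW * k₁) * k₂ := by
      calc (nA * w) * k₂ = (nA * k₂) * w := by ring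
        _ = (Γ * k₁) * w := by rw [ha]
        _ = (Γ * w) * k₁ := by ring
        _ ≤ (RW * k₂ + Γ * h₂) * k₁ :=
          Nat.mul_le_mul_right _ (hb2.trans (Nat.add_le_add_right hb1 _))
        _ = RW * k₁ * k₂ + (Γ * k₁) * h₂ := by ring
        _ = RW * k₁ * k₂ + (nA * k₂) * h₂ := by rw [ha]
        _ = (nA * h₂ + RW * k₁) * k₂ := by ring
    exact Nat.le_of_mul_le_mul_right e2 hK2pos
  calc n₁ * w ≤ (nA + h₁) * w := Nat.mul_le_mul_right _ hc
    _ = nA * w + h₁ * w := by ring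
    _ ≤ (nA * h₂ + RW * k₁) + h₁ * w := Nat.add_le_add_right e1 _
    _ ≤ (n₁ * h₂ + RW * k₁) + h₁ * w :=
      Nat.add_le_add_right (Nat.add_le_add_right (Nat.mul_le_mul_right _ hd) _) _
    _ = RW * k₁ + n₁ * h₂ + h₁ * w := by ring

end Pool.Agent.W2helper50.KB
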