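import Pool.Agent.W2helper50.KB.Transfer

/-!
# The second stage of the attack, for fixed knowledge of Eve after the first stage
-/

set_option autoImplicit false

namespace Pool.Agent.W2helper50.KB

open Finset Classical Pool.Agent.W2helper50.KA

variable {G H I RA RB C : Type} [AddCommGroup G] [AddCommGroup H] [Fintype G] [Fintype RA]
  [Fintype RB] [Finite H]

theorem level (ev : I → G →+ H) (kn₁ : List (I × H)) (f₁ : G) (hf₁ : Cons ev kn₁ f₁)
    (SA : RA → G → Prop)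
    (qa : RA → G → List I) (ct : RB → G → C) (qb : RB → G → List I) (β : RB → Bool)
    (qd : RA → G → C → List I) (dec : RA → G → C → Bool)
    (hA : ∀ r f g, g - f ∈ Ann ev (qa r f) → qa r g = qa r f ∧ (SA r g ↔ SA r f))
    (hB : ∀ s f g, g - f ∈ Ann ev (qb s f) → qb s g = qb s f ∧ ct s g = ct s f)
    (hD : ∀ r f g c, g - f ∈ Ann ev (qa r f ++ qd r f c) →
      qd r g c = qd r f c ∧ dec r g c = dec r f c)
    (B₂ D₁ D₂ L h₁ : ℕ) (hL : 0 < L) (hqb : ∀ s f, (qb s f).length ≤ B₂)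
    (hlen : ∀ r f c, (qa r f ++ qd r f c).length ≤ D₂) (hD₁ : B₂ + L * D₂ ≤ D₁)
    (hh₁ : ∀ W : List I, W.length ≤ D₁ → hits ev SA qa kn₁ W ≤ h₁) :
    ∃ Eve : C → Alg I H Bool, (∀ c f, (Eve c).cost (fun i => ev i f) ≤ L * D₂) ∧
      L * cnt (fun p : RA × RB × G => (Cons ev kn₁ p.2.2 ∧ SA p.1 p.2.2) ∧
        (Eve (ct p.2.1 p.2.2)).out (fun i => ev i p.2.2) ≠ β p.2.1) ≤
      L * cnt (fun p : RA × RB × G => (Cons ev kn₁ p.2.2 ∧ SA p.1 p.2.2) ∧
        dec p.1 p.2.2 (ct p.2.1 p.2.2) ≠ β p.2.1) +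
      cnt (fun p : RA × G => Cons ev kn₁ p.2 ∧ SA p.1 p.2) *
        (B₂ * Nat.clog 2 (Nat.card H) * Fintype.card RB) +
      2 * L * (Fintype.card RB * h₁) := by
  choose T hT1 hT2 hT3 hT4 using fun c : C =>
    stage ev (fun (s : RB) f => ct s f = c) qb D₂ B₂ L hqb hL kn₁
  have hg : ∀ (c : C) (t : List (I × H)), ∃ b : Bool, ∀ b' : Bool,
      cnt (fun p : RB × G => (Cons ev t p.2 ∧ ct p.1 p.2 = c) ∧ b ≠ β p.1) ≤
      cnt (fun p : RB × G => (Cons ev t p.2 ∧ ct p.1 p.2 = c) ∧ b' ≠ β p.1) :=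
    fun c t => Finite.exists_min _
  choose guess hguess using hg
  choose Eve hEve using fun c => hT1 c Bool (fun t => .done (guess c t))
  have hout : ∀ c f, (Eve c).out (fun i => ev i f) = guess c (T c f) := fun c f => (hEve c f).1
  refine ⟨Eve, fun c f => by simpa [Alg.cost] using (hEve c f).2, ?_⟩
  simp only [hout]
  obtain ⟨k₁, hk₁⟩ : ∃ k₁, k₁ = Nat.card (KN ev kn₁) := ⟨_, rfl⟩
  have hk₁pos : 0 < k₁ := by
    rw [hk₁]
    exact card_KN_pos ev kn₁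
  have hall : cnt (fun p : RB × G => Cons ev kn₁ p.2) = Fintype.card RB * k₁ := by
    rw [cnt_prod]
    dsimp only
    rw [sum_const, card_univ, smul_eq_mul]
    congr 1
    rw [hk₁]
    exact cnt_cons hf₁
  obtain ⟨key, hkey⟩ : ∃ key : RB × G → C × List (I × H),
    key = fun p => (ct p.1 p.2, T (ct p.1 p.2) p.2) := ⟨_, rfl⟩
  obtain ⟨S, hS⟩ : ∃ S, S = (univ.filter (fun p : RB × G => Cons ev kn₁ p.2)).image key :=
    ⟨_, rfl⟩
  have hmem : ∀ p : RB × G, Cons ev kn₁ p.2 → key p ∈ S := fun p hp => by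
    rw [hS]
    exact mem_image_of_mem key (by simp [hp])
  -- the fibres
  have hfib : ∀ τ ∈ S, ∃ new f₀, τ.2 = kn₁ ++ new ∧ new.length ≤ L * D₂ ∧
      Cons ev (kn₁ ++ new) f₀ ∧
      ∀ p : RB × G, (key p = τ ∧ Cons ev kn₁ p.2) ↔ (Cons ev τ.2 p.2 ∧ ct p.1 p.2 = τ.1) := by
    intro τ hτ
    rw [hS, mem_image] at hτ
    obtain ⟨⟨s₀, f₀⟩, h1, h2⟩ := hτ
    rw [mem_filter] at h1
    obtain ⟨new, h3, h4, h5⟩ := hT2 (ct s₀ f₀) f₀
    have h6 : τ = (ct s₀ f₀, T (ct s₀ f₀) f₀) := by rw [← h2, hkey]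
    refine ⟨new, f₀, ?_, h4, cons_append.2 ⟨h1.2, h5⟩, ?_⟩
    · rw [h6]
      exact h3
    · rintro ⟨s, f⟩
      rw [h6, hkey]
      simp only [Prod.mk.injEq]
      constructor
      · rintro ⟨⟨h7, h8⟩, h9⟩
        refine ⟨?_, h7⟩
        rw [← h8, h7]
        obtain ⟨new', h10, _, h11⟩ := hT2 (ct s₀ f₀) f
        rw [h10]
        exact cons_append.2 ⟨h9, h11⟩
      · rintro ⟨h7, h8⟩
        rw [h8]
        refine ⟨⟨rfl, hT3 _ _ _ h7⟩, ?_⟩
        rw [h3, cons_append] at h7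
        exact h7.1
  -- first inequality
  have hw : cnt (fun p : RB × G => Cons ev kn₁ p.2 ∧
        guess (ct p.1 p.2) (T (ct p.1 p.2) p.2) ≠ β p.1) =
      ∑ τ ∈ S, cnt (fun p : RB × G => (Cons ev τ.2 p.2 ∧ ct p.1 p.2 = τ.1) ∧
        guess τ.1 τ.2 ≠ β p.1) := by
    rw [cnt_fiber key S _ (fun p hp => hmem p hp.1)]
    apply sum_congr rfl
    intro τ hτ
    obtain ⟨_, _, _, _, _, h1⟩ := hfib τ hτ
    apply cnt_congr
    intro p
    rw [← h1 p]
    constructor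
    · rintro ⟨h2, h3, h4⟩
      refine ⟨⟨h2, h3⟩, ?_⟩
      rw [← h2, hkey]
      exact h4
    · rintro ⟨⟨h2, h3⟩, h4⟩
      refine ⟨h2, h3, ?_⟩
      rw [← h2, hkey] at h4
      exact h4
  have hRW : cnt (fun p : RA × RB × G => (Cons ev kn₁ p.2.2 ∧ SA p.1 p.2.2) ∧
        dec p.1 p.2.2 (ct p.2.1 p.2.2) ≠ β p.2.1) =
      ∑ τ ∈ S, cnt (fun p : RA × RB × G => (Cons ev τ.2 p.2.2 ∧ ct p.2.1 p.2.2 = τ.1) ∧
        SA p.1 p.2.2 ∧ dec p.1 p.2.2 τ.1 ≠ β p.2.1) := by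
    rw [cnt_fiber (fun p : RA × RB × G => key p.2) S _ (fun p hp => hmem p.2 hp.1.1)]
    apply sum_congr rfl
    intro τ hτ
    obtain ⟨_, _, _, _, _, h1⟩ := hfib τ hτ
    apply cnt_congr
    intro p
    rw [← h1 p.2]
    constructor
    · rintro ⟨h2, ⟨h3, h5⟩, h4⟩
      refine ⟨⟨h2, h3⟩, h5, ?_⟩
      rw [← h2, hkey]
      exact h4
    · rintro ⟨⟨h2, h3⟩, h5, h4⟩
      refine ⟨h2, ⟨h3, h5⟩, ?_⟩
      rw [← h2, hkey] at h4
      exact h4
  have hE : cnt (fun p : RB × G => Cons ev kn₁ p.2 ∧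
        Hit ev (fun (s : RB) f => ct s f = ct p.1 p.2) qb D₂ (T (ct p.1 p.2) p.2) p.1 p.2) =
      ∑ τ ∈ S, hits ev (fun (s : RB) f => ct s f = τ.1) qb τ.2
        (best ev (fun (s : RB) f => ct s f = τ.1) qb D₂ τ.2) := by
    rw [cnt_fiber key S _ (fun p hp => hmem p hp.1)]
    apply sum_congr rfl
    intro τ hτ
    obtain ⟨_, _, _, _, _, h1⟩ := hfib τ hτ
    apply cnt_congr
    intro p
    rw [← and_assoc, ← and_assoc, h1 p]
    apply and_congr_right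
    intro h2
    rw [← h1 p] at h2
    rw [← h2.1, hkey]
    exact Iff.rfl
  have ineq1 : cnt (fun p : RA × G => Cons ev kn₁ p.2 ∧ SA p.1 p.2) *
        cnt (fun p : RB × G => Cons ev kn₁ p.2 ∧
          guess (ct p.1 p.2) (T (ct p.1 p.2) p.2) ≠ β p.1) ≤
      cnt (fun p : RA × RB × G => (Cons ev kn₁ p.2.2 ∧ SA p.1 p.2.2) ∧
        dec p.1 p.2.2 (ct p.2.1 p.2.2) ≠ β p.2.1) * k₁ +
      cnt (fun p : RA × G => Cons ev kn₁ p.2 ∧ SA p.1 p.2) *
        cnt (fun p : RB × G => Cons ev kn₁ p.2 ∧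
        Hit ev (fun (s : RB) f => ct s f = ct p.1 p.2) qb D₂ (T (ct p.1 p.2) p.2) p.1 p.2) +
      h₁ * cnt (fun p : RB × G => Cons ev kn₁ p.2 ∧
          guess (ct p.1 p.2) (T (ct p.1 p.2) p.2) ≠ β p.1) := by
    rw [hw, hRW, hE, mul_sum, sum_mul, mul_sum, mul_sum, ← sum_add_distrib, ← sum_add_distrib]
    apply sum_le_sum
    intro τ hτ
    obtain ⟨new, f₀, h1, h2, h3, _⟩ := hfib τ hτ
    have h4 := fixed ev kn₁ new SA qa ct qb β qd dec hA hB hD τ.1 (guess τ.1 τ.2) f₀ h3 D₁ D₂ h₁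
      (hits ev (fun (s : RB) f => ct s f = τ.1) qb τ.2
        (best ev (fun (s : RB) f => ct s f = τ.1) qb D₂ τ.2))
      (by omega) hh₁ (fun r f => hlen r f τ.1)
      (by
        rw [← h1]
        exact best_spec ev (fun (s : RB) f => ct s f = τ.1) qb D₂ τ.2)
      (by
        rw [← h1]
        exact hguess τ.1 τ.2)
    rw [← h1, ← hk₁] at h4
    exact h4
  -- the second inequality
  have ineq2 := transfer ev kn₁ f₁ hf₁ SA qa
    (fun s f => qb s f ++ ((T (ct s f) f).drop kn₁.length).map Prod.fst)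
    (fun s f => guess (ct s f) (T (ct s f) f) ≠ β s) D₁ h₁ hA
    (by
      intro s f g hf h1 h2
      rw [Ann_append] at h2
      obtain ⟨h3, h4⟩ := hB s f g h2.1
      obtain ⟨new, h5, h6, h7⟩ := hT2 (ct s f) f
      have h8 : T (ct s f) g = T (ct s f) f := by
        apply hT3
        rw [h5, cons_append]
        refine ⟨(cons_iff hf g).2 h1, (cons_iff h7 g).2 ?_⟩
        have h9 := h2.2
        rw [h5, List.drop_left] at h9
        exact h9
      simp only [h3, h4, h8]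
      exact ⟨trivial, trivial⟩)
    (by
      intro s f hf
      obtain ⟨new, h5, h6, h7⟩ := hT2 (ct s f) f
      rw [List.length_append, List.length_map, h5, List.drop_left]
      have := hqb s f
      omega)
    hh₁
  rw [← hk₁] at ineq2
  -- the sizes
  have hwle : cnt (fun p : RB × G => Cons ev kn₁ p.2 ∧
        guess (ct p.1 p.2) (T (ct p.1 p.2) p.2) ≠ β p.1) ≤ Fintype.card RB * k₁ := by
    rw [← hall]
    exact cnt_mono fun p hp => hp.1
  have hEle : L * cnt (fun p : RB × G => Cons ev kn₁ p.2 ∧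
        Hit ev (fun (s : RB) f => ct s f = ct p.1 p.2) qb D₂ (T (ct p.1 p.2) p.2) p.1 p.2) ≤
      B₂ * Nat.clog 2 (Nat.card H) * (Fintype.card RB * k₁) := by
    rw [← hall, cnt_fiber (fun p : RB × G => ct p.1 p.2)
      (univ.image (fun p : RB × G => ct p.1 p.2)) _ (fun p _ => mem_image_of_mem _ (mem_univ p)),
      cnt_fiber (fun p : RB × G => ct p.1 p.2)
      (univ.image (fun p : RB × G => ct p.1 p.2)) (fun p => Cons ev kn₁ p.2)
      (fun p _ => mem_image_of_mem _ (mem_univ p)), mul_sum, mul_sum]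
    apply sum_le_sum
    intro c _
    have h1 := hT4 c
    refine le_trans (Nat.mul_le_mul_left _ (cnt_mono ?_)) (h1.trans
      (Nat.mul_le_mul_left _ (cnt_mono ?_)))
    · rintro p ⟨h2, h3, h4⟩
      refine ⟨⟨h3, h2⟩, ?_⟩
      rw [← h2]
      exact h4
    · rintro p ⟨h2, h3⟩
      exact ⟨h3, h2⟩
  generalize cnt (fun p : RA × RB × G => (Cons ev kn₁ p.2.2 ∧ SA p.1 p.2.2) ∧
        dec p.1 p.2.2 (ct p.2.1 p.2.2) ≠ β p.2.1) = RW at *
  generalize cnt (fun p : RA × RB × G => (Cons ev kn₁ p.2.2 ∧ SA p.1 p.2.2) ∧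
        guess (ct p.2.1 p.2.2) (T (ct p.2.1 p.2.2) p.2.2) ≠ β p.2.1) = GW at *
  generalize cnt (fun p : RB × G => Cons ev kn₁ p.2 ∧
        Hit ev (fun (s : RB) f => ct s f = ct p.1 p.2) qb D₂ (T (ct p.1 p.2) p.2) p.1 p.2) = E at *
  generalize cnt (fun p : RB × G => Cons ev kn₁ p.2 ∧
        guess (ct p.1 p.2) (T (ct p.1 p.2) p.2) ≠ β p.1) = w at *
  generalize cnt (fun p : RA × G => Cons ev kn₁ p.2 ∧ SA p.1 p.2) = n₁ at *
  apply Nat.le_of_mul_le_mul_right _ hk₁pos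
  calc L * GW * k₁ = L * (GW * k₁) := by ring
    _ ≤ L * ((RW * k₁ + n₁ * E + h₁ * w) + Fintype.card RB * h₁ * k₁) :=
      Nat.mul_le_mul_left _ (ineq2.trans (Nat.add_le_add_right ineq1 _))
    _ = L * RW * k₁ + n₁ * (L * E) + L * h₁ * w + L * Fintype.card RB * h₁ * k₁ := by ring
    _ ≤ L * RW * k₁ + n₁ * (B₂ * Nat.clog 2 (Nat.card H) * (Fintype.card RB * k₁)) +
        L * h₁ * (Fintype.card RB * k₁) + L * Fintype.card RB * h₁ * k₁ := by
      apply Nat.add_le_add_right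
      apply Nat.add_le_add
      · exact Nat.add_le_add_left (Nat.mul_le_mul_left _ hEle) _
      · exact Nat.mul_le_mul_left _ hwle
    _ = (L * RW + n₁ * (B₂ * Nat.clog 2 (Nat.card H) * Fintype.card RB) +
        2 * L * (Fintype.card RB * h₁)) * k₁ := by ring

end Pool.Agent.W2helper50.KB
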