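import Pool.Agent.W2helper50.KB.Level

/-!
# The attack on public-key encryption with decryption errors
-/

set_option autoImplicit false

namespace Pool.Agent.W2helper50.KB

open Finset Classical Pool.Agent.W2helper50.KA

/-- The queries that are made. -/
def qs {I H K : Type} : Alg I H K → (I → H) → List I
  | .done _, _ => []
  | .ask i c, o => i :: qs (c (o i)) o

theorem length_qs {I H K : Type} (P : Alg I H K) (o : I → H) : (qs P o).length = P.cost o := by
  induction P with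
  | done k => rfl
  | ask i c ih => simp only [qs, List.length_cons, Alg.cost, ih]

theorem qs_congr {I H K : Type} (P : Alg I H K) (o o' : I → H) (h : ∀ i ∈ qs P o, o i = o' i) :
    qs P o' = qs P o ∧ P.out o' = P.out o := by
  induction P with
  | done k => exact ⟨rfl, rfl⟩
  | ask i c ih =>
    have h1 : o i = o' i := h i (by simp [qs])
    have h2 := ih (o i) (fun j hj => h j (by simp [qs, hj]))
    simp only [qs, Alg.out, ← h1, h2.1, h2.2, and_self]

variable {G H I RG RE PK SK C : Type} [AddCommGroup G] [AddCommGroup H] [Fintype G] [Fintype RG]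
  [Fintype RE] [Finite H]

omit [Fintype G] [Finite H] in
theorem qs_congr_ann {K : Type} (ev : I → G →+ H) (P : Alg I H K) {f g : G}
    (h : g - f ∈ Ann ev (qs P (fun i => ev i f))) :
    qs P (fun i => ev i g) = qs P (fun i => ev i f) ∧
      P.out (fun i => ev i g) = P.out (fun i => ev i f) := by
  apply qs_congr
  intro i hi
  have := h i hi
  rw [map_sub, sub_eq_zero] at this
  exact this.symm

theorem pkeError (ev : I → G →+ H) (E : PKE I H RG RE PK SK C) (g e d L : ℕ) (hL : 0 < L)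
    (hg : ∀ r (f : G), (E.gen r).cost (fun i => ev i f) ≤ g)
    (he : ∀ pk β s (f : G), (E.enc pk β s).cost (fun i => ev i f) ≤ e)
    (hd : ∀ sk c (f : G), (E.dec sk c).cost (fun i => ev i f) ≤ d) :
    ∃ Eve : PK → C → Alg I H Bool,
      (∀ pk c (f : G), (Eve pk c).cost (fun i => ev i f) ≤
        L * (e + L * (g + d)) + L * (g + d)) ∧
      L * cnt (fun p : RG × (Bool × RE) × G =>
        (Eve (E.pk p.1 (fun i => ev i p.2.2))
          (E.ct p.1 p.2.1.2 p.2.1.1 (fun i => ev i p.2.2))).out (fun i => ev i p.2.2) ≠ p.2.1.1) ≤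
      L * cnt (fun p : RG × (Bool × RE) × G =>
        (E.dec ((E.gen p.1).out (fun i => ev i p.2.2)).2
          (E.ct p.1 p.2.1.2 p.2.1.1 (fun i => ev i p.2.2))).out (fun i => ev i p.2.2) ≠ p.2.1.1) +
      (2 * g + e) * Nat.clog 2 (Nat.card H) * Fintype.card (RG × (Bool × RE) × G) := by
  obtain ⟨D₁, hD₁⟩ : ∃ D₁, D₁ = e + L * (g + d) := ⟨_, rfl⟩
  obtain ⟨qa, hqa⟩ : ∃ qa : RG → G → List I, qa = fun r f => qs (E.gen r) (fun i => ev i f) :=
    ⟨_, rfl⟩
  obtain ⟨pop, hpop⟩ : ∃ pop : PK → RG → G → Prop,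
    pop = fun pk r f => E.pk r (fun i => ev i f) = pk := ⟨_, rfl⟩
  have hqal : ∀ r f, (qa r f).length ≤ g := fun r f => by
    rw [hqa, length_qs]
    exact hg r f
  choose T hT1 hT2 hT3 hT4 using fun pk : PK => stage ev (pop pk) qa D₁ g L hqal hL []
  have hcons0 : ∀ f : G, Cons ev ([] : List (I × H)) f := fun f p hp => by simp at hp
  -- the second stage
  have hlev : ∀ (pk : PK) (t : List (I × H)), ∃ Eve₂ : C → Alg I H Bool,
      (∀ c f, (Eve₂ c).cost (fun i => ev i f) ≤ L * (g + d)) ∧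
      ((∃ f₁, Cons ev t f₁) →
      L * cnt (fun p : RG × (Bool × RE) × G => (Cons ev t p.2.2 ∧ pop pk p.1 p.2.2) ∧
        (Eve₂ ((E.enc pk p.2.1.1 p.2.1.2).out (fun i => ev i p.2.2))).out
          (fun i => ev i p.2.2) ≠ p.2.1.1) ≤
      L * cnt (fun p : RG × (Bool × RE) × G => (Cons ev t p.2.2 ∧ pop pk p.1 p.2.2) ∧
        (E.dec ((E.gen p.1).out (fun i => ev i p.2.2)).2
          ((E.enc pk p.2.1.1 p.2.1.2).out (fun i => ev i p.2.2))).out
          (fun i => ev i p.2.2) ≠ p.2.1.1) +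
      cnt (fun p : RG × G => Cons ev t p.2 ∧ pop pk p.1 p.2) *
        (e * Nat.clog 2 (Nat.card H) * Fintype.card (Bool × RE)) +
      2 * L * (Fintype.card (Bool × RE) *
        hits ev (pop pk) qa t (best ev (pop pk) qa D₁ t))) := by
    intro pk t
    by_cases hex : ∃ f₁, Cons ev t f₁
    · obtain ⟨f₁, hf₁⟩ := hex
      obtain ⟨Eve₂, h1, h2⟩ := level (RB := Bool × RE) ev t f₁ hf₁ (pop pk) qa
        (fun s f => (E.enc pk s.1 s.2).out (fun i => ev i f))
        (fun s f => qs (E.enc pk s.1 s.2) (fun i => ev i f)) (fun s => s.1)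
        (fun r f c => qs (E.dec ((E.gen r).out (fun i => ev i f)).2 c) (fun i => ev i f))
        (fun r f c => (E.dec ((E.gen r).out (fun i => ev i f)).2 c).out (fun i => ev i f))
        (by
          intro r f f' h
          rw [hqa] at h ⊢
          obtain ⟨h3, h4⟩ := qs_congr_ann ev (E.gen r) h
          refine ⟨h3, ?_⟩
          rw [hpop]
          simp only [PKE.pk, h4])
        (by
          intro s f f' h
          exact qs_congr_ann ev (E.enc pk s.1 s.2) h)
        (by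
          intro r f f' c h
          rw [Ann_append, hqa] at h
          obtain ⟨h3, h4⟩ := qs_congr_ann ev (E.gen r) h.1
          obtain ⟨h5, h6⟩ := qs_congr_ann ev _ h.2
          rw [h4]
          exact ⟨h5, h6⟩)
        e D₁ (g + d) L (hits ev (pop pk) qa t (best ev (pop pk) qa D₁ t)) hL
        (by
          intro s f
          rw [length_qs]
          exact he _ _ _ _)
        (by
          intro r f c
          rw [List.length_append, length_qs]
          exact Nat.add_le_add (hqal r f) (hd _ _ _))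
        (le_of_eq hD₁.symm) (best_spec ev (pop pk) qa D₁ t)
      exact ⟨Eve₂, h1, fun _ => h2⟩
    · exact ⟨fun _ => .done false, fun c f => by simp [Alg.cost], fun h => absurd h hex⟩
  choose Eve₂ hcost₂ hineq₂ using hlev
  choose Eve hEve using fun (pk : PK) (c : C) => hT1 pk Bool (fun t => Eve₂ pk t c)
  refine ⟨Eve, ?_, ?_⟩
  · intro pk c f
    have h1 := (hEve pk c f).2
    have h2 := hcost₂ pk (T pk f) c f
    rw [← hD₁]
    omega
  have hout : ∀ pk c f, (Eve pk c).out (fun i => ev i f) =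
      (Eve₂ pk (T pk f) c).out (fun i => ev i f) := fun pk c f => (hEve pk c f).1
  simp only [hout]
  obtain ⟨key, hkey⟩ : ∃ key : RG × G → PK × List (I × H),
    key = fun p => (E.pk p.1 (fun i => ev i p.2), T (E.pk p.1 (fun i => ev i p.2)) p.2) :=
    ⟨_, rfl⟩
  obtain ⟨S, hS⟩ : ∃ S, S = univ.image key := ⟨_, rfl⟩
  have hmem : ∀ p : RG × G, key p ∈ S := fun p => by
    rw [hS]
    exact mem_image_of_mem key (mem_univ p)
  have hfib : ∀ τ ∈ S, (∃ f₀, Cons ev τ.2 f₀) ∧
      ∀ p : RG × G, key p = τ ↔ (Cons ev τ.2 p.2 ∧ pop τ.1 p.1 p.2) := by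
    intro τ hτ
    rw [hS, mem_image] at hτ
    obtain ⟨⟨r₀, f₀⟩, _, h2⟩ := hτ
    have h6 : τ = (E.pk r₀ (fun i => ev i f₀), T (E.pk r₀ (fun i => ev i f₀)) f₀) := by
      rw [← h2, hkey]
    have hc0 : ∀ pk f, Cons ev (T pk f) f := by
      intro pk f
      obtain ⟨new, h3, _, h5⟩ := hT2 pk f
      rw [h3]
      exact cons_append.2 ⟨hcons0 f, h5⟩
    refine ⟨⟨f₀, by rw [h6]; exact hc0 _ _⟩, ?_⟩
    rintro ⟨r, f⟩
    rw [h6, hkey, hpop]
    simp only [Prod.mk.injEq]
    constructor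
    · rintro ⟨h7, h8⟩
      refine ⟨?_, h7⟩
      rw [← h8, h7]
      exact hc0 _ _
    · rintro ⟨h7, h8⟩
      rw [h8]
      exact ⟨rfl, hT3 _ _ _ h7⟩
  -- decomposition
  have hGW : cnt (fun p : RG × (Bool × RE) × G =>
        (Eve₂ (E.pk p.1 (fun i => ev i p.2.2)) (T (E.pk p.1 (fun i => ev i p.2.2)) p.2.2)
          (E.ct p.1 p.2.1.2 p.2.1.1 (fun i => ev i p.2.2))).out (fun i => ev i p.2.2) ≠ p.2.1.1) =
      ∑ τ ∈ S, cnt (fun p : RG × (Bool × RE) × G =>
        (Cons ev τ.2 p.2.2 ∧ pop τ.1 p.1 p.2.2) ∧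
        (Eve₂ τ.1 τ.2 ((E.enc τ.1 p.2.1.1 p.2.1.2).out (fun i => ev i p.2.2))).out
          (fun i => ev i p.2.2) ≠ p.2.1.1) := by
    rw [cnt_fiber (fun p : RG × (Bool × RE) × G => key (p.1, p.2.2)) S _ (fun p _ => hmem _)]
    apply sum_congr rfl
    intro τ hτ
    obtain ⟨_, h1⟩ := hfib τ hτ
    apply cnt_congr
    intro p
    rw [← h1 (p.1, p.2.2)]
    apply and_congr_right
    intro h2
    rw [← h2, hkey]
    exact Iff.rfl
  have hRW : cnt (fun p : RG × (Bool × RE) × G =>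
        (E.dec ((E.gen p.1).out (fun i => ev i p.2.2)).2
          (E.ct p.1 p.2.1.2 p.2.1.1 (fun i => ev i p.2.2))).out (fun i => ev i p.2.2) ≠ p.2.1.1) =
      ∑ τ ∈ S, cnt (fun p : RG × (Bool × RE) × G =>
        (Cons ev τ.2 p.2.2 ∧ pop τ.1 p.1 p.2.2) ∧
        (E.dec ((E.gen p.1).out (fun i => ev i p.2.2)).2
          ((E.enc τ.1 p.2.1.1 p.2.1.2).out (fun i => ev i p.2.2))).out
          (fun i => ev i p.2.2) ≠ p.2.1.1) := by
    rw [cnt_fiber (fun p : RG × (Bool × RE) × G => key (p.1, p.2.2)) S _ (fun p _ => hmem _)]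
    apply sum_congr rfl
    intro τ hτ
    obtain ⟨_, h1⟩ := hfib τ hτ
    apply cnt_congr
    intro p
    rw [← h1 (p.1, p.2.2)]
    apply and_congr_right
    intro h2
    rw [← h2, hkey]
    exact Iff.rfl
  have hn : ∑ τ ∈ S, cnt (fun p : RG × G => Cons ev τ.2 p.2 ∧ pop τ.1 p.1 p.2) =
      Fintype.card (RG × G) := by
    have h1 : cnt (fun _ : RG × G => True) = Fintype.card (RG × G) := by
      simp [cnt]
    rw [← h1, cnt_fiber key S _ (fun p _ => hmem p)]
    apply sum_congr rfl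
    intro τ hτ
    obtain ⟨_, h2⟩ := hfib τ hτ
    apply cnt_congr
    intro p
    rw [← h2 p]
    simp
  have hh : L * ∑ τ ∈ S, hits ev (pop τ.1) qa τ.2 (best ev (pop τ.1) qa D₁ τ.2) ≤
      g * Nat.clog 2 (Nat.card H) * Fintype.card (RG × G) := by
    have h1 : ∑ τ ∈ S, hits ev (pop τ.1) qa τ.2 (best ev (pop τ.1) qa D₁ τ.2) =
        cnt (fun p : RG × G => Hit ev (pop (E.pk p.1 (fun i => ev i p.2))) qa D₁
          (T (E.pk p.1 (fun i => ev i p.2)) p.2) p.1 p.2) := by
      rw [cnt_fiber key S _ (fun p _ => hmem p)]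
      apply sum_congr rfl
      intro τ hτ
      obtain ⟨_, h2⟩ := hfib τ hτ
      apply cnt_congr
      intro p
      rw [← and_assoc, ← h2 p]
      apply and_congr_right
      intro h3
      rw [← h3, hkey]
      exact Iff.rfl
    have h2 : cnt (fun _ : RG × G => True) = Fintype.card (RG × G) := by
      simp [cnt]
    rw [h1, ← h2, cnt_fiber (fun p : RG × G => E.pk p.1 (fun i => ev i p.2))
      (univ.image (fun p : RG × G => E.pk p.1 (fun i => ev i p.2))) _
      (fun p _ => mem_image_of_mem _ (mem_univ p)),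
      cnt_fiber (fun p : RG × G => E.pk p.1 (fun i => ev i p.2))
      (univ.image (fun p : RG × G => E.pk p.1 (fun i => ev i p.2))) (fun _ => True)
      (fun p _ => mem_image_of_mem _ (mem_univ p)), mul_sum, mul_sum]
    apply sum_le_sum
    intro pk _
    refine le_trans (Nat.mul_le_mul_left _ (cnt_mono ?_)) ((hT4 pk).trans
      (Nat.mul_le_mul_left _ (cnt_mono ?_)))
    · rintro p ⟨h3, h4⟩
      refine ⟨⟨hcons0 _, ?_⟩, ?_⟩
      · rw [hpop]
        exact h3
      · rw [← h3]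
        exact h4
    · rintro p ⟨_, h4⟩
      refine ⟨?_, trivial⟩
      rw [hpop] at h4
      exact h4
  have hcard : Fintype.card (RG × (Bool × RE) × G) =
      Fintype.card (Bool × RE) * Fintype.card (RG × G) := by
    rw [Fintype.card_prod RG, Fintype.card_prod (Bool × RE) G, Fintype.card_prod RG G]
    ring
  rw [hGW, hRW, hcard, mul_sum]
  calc _ ≤ ∑ τ ∈ S, (L * cnt (fun p : RG × (Bool × RE) × G =>
        (Cons ev τ.2 p.2.2 ∧ pop τ.1 p.1 p.2.2) ∧
        (E.dec ((E.gen p.1).out (fun i => ev i p.2.2)).2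
          ((E.enc τ.1 p.2.1.1 p.2.1.2).out (fun i => ev i p.2.2))).out
          (fun i => ev i p.2.2) ≠ p.2.1.1) +
      cnt (fun p : RG × G => Cons ev τ.2 p.2 ∧ pop τ.1 p.1 p.2) *
        (e * Nat.clog 2 (Nat.card H) * Fintype.card (Bool × RE)) +
      2 * L * (Fintype.card (Bool × RE) *
        hits ev (pop τ.1) qa τ.2 (best ev (pop τ.1) qa D₁ τ.2))) :=
        sum_le_sum fun τ hτ => hineq₂ τ.1 τ.2 (hfib τ hτ).1
    _ = L * (∑ τ ∈ S, cnt (fun p : RG × (Bool × RE) × G =>
        (Cons ev τ.2 p.2.2 ∧ pop τ.1 p.1 p.2.2) ∧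
        (E.dec ((E.gen p.1).out (fun i => ev i p.2.2)).2
          ((E.enc τ.1 p.2.1.1 p.2.1.2).out (fun i => ev i p.2.2))).out
          (fun i => ev i p.2.2) ≠ p.2.1.1)) +
      (∑ τ ∈ S, cnt (fun p : RG × G => Cons ev τ.2 p.2 ∧ pop τ.1 p.1 p.2)) *
        (e * Nat.clog 2 (Nat.card H) * Fintype.card (Bool × RE)) +
      2 * Fintype.card (Bool × RE) *
        (L * ∑ τ ∈ S, hits ev (pop τ.1) qa τ.2 (best ev (pop τ.1) qa D₁ τ.2)) := by
      rw [sum_add_distrib, sum_add_distrib, mul_sum, sum_mul, mul_sum, mul_sum]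
      congr 1
      apply sum_congr rfl
      intro τ _
      ring
    _ ≤ L * (∑ τ ∈ S, cnt (fun p : RG × (Bool × RE) × G =>
        (Cons ev τ.2 p.2.2 ∧ pop τ.1 p.1 p.2.2) ∧
        (E.dec ((E.gen p.1).out (fun i => ev i p.2.2)).2
          ((E.enc τ.1 p.2.1.1 p.2.1.2).out (fun i => ev i p.2.2))).out
          (fun i => ev i p.2.2) ≠ p.2.1.1)) +
      Fintype.card (RG × G) *
        (e * Nat.clog 2 (Nat.card H) * Fintype.card (Bool × RE)) +
      2 * Fintype.card (Bool × RE) *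
        (g * Nat.clog 2 (Nat.card H) * Fintype.card (RG × G)) := by
      rw [hn]
      exact Nat.add_le_add_left (Nat.mul_le_mul_left _ hh) _
    _ = _ := by ring

end Pool.Agent.W2helper50.KB
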