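import Pool.Agent.W2helper50.KB.Count

/-!
# A stage of the attack: Eve asks until the views of a party are spread
-/

set_option autoImplicit false

namespace Pool.Agent.W2helper50.KB

open Finset Classical Pool.Agent.W2helper50.KA

section

variable {G H I : Type} [AddCommGroup G] [AddCommGroup H]

/-- The oracle `f` agrees with the known answers. -/
def Cons (ev : I → G →+ H) (kn : List (I × H)) (f : G) : Prop := ∀ p ∈ kn, ev p.1 f = p.2

/-- The subgroup of the known queries. -/
def KN (ev : I → G →+ H) (kn : List (I × H)) : AddSubgroup G := Ann ev (kn.map Prod.fst)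

/-- The answers to a list of queries. -/
def ans (ev : I → G →+ H) (W : List I) (f : G) : List (I × H) := W.map (fun i => (i, ev i f))

variable {ev : I → G →+ H}

theorem KN_append (kn kn' : List (I × H)) : KN ev (kn ++ kn') = KN ev kn ⊓ KN ev kn' := by
  rw [KN, List.map_append, Ann_append]
  rfl

theorem KN_ans (W : List I) (f : G) : KN ev (ans ev W f) = Ann ev W := by
  rw [KN, ans, List.map_map]
  congr 1
  exact List.map_id _

theorem cons_append {kn kn' : List (I × H)} {f : G} :
    Cons ev (kn ++ kn') f ↔ Cons ev kn f ∧ Cons ev kn' f := by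
  simp only [Cons, List.mem_append]
  constructor
  · intro h
    exact ⟨fun p hp => h p (Or.inl hp), fun p hp => h p (Or.inr hp)⟩
  · rintro ⟨h1, h2⟩ p (hp | hp)
    · exact h1 p hp
    · exact h2 p hp

theorem cons_ans (W : List I) (f : G) : Cons ev (ans ev W f) f := by
  intro p hp
  rw [ans, List.mem_map] at hp
  obtain ⟨i, _, rfl⟩ := hp
  rfl

theorem cons_iff {kn : List (I × H)} {f : G} (h : Cons ev kn f) (g : G) :
    Cons ev kn g ↔ g - f ∈ KN ev kn := by
  constructor
  · intro hg
    apply sub_mem_Ann
    intro i hi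
    rw [List.mem_map] at hi
    obtain ⟨p, hp, rfl⟩ := hi
    rw [hg p hp, h p hp]
  · intro hg p hp
    have h1 := hg p.1 (List.mem_map_of_mem hp)
    rw [map_sub, h p hp, sub_eq_zero] at h1
    exact h1

theorem ans_congr {W : List I} {f g : G} (h : Cons ev (ans ev W f) g) :
    ans ev W g = ans ev W f := by
  rw [ans, ans]
  apply List.map_congr_left
  intro i hi
  rw [h (i, ev i f) (by rw [ans, List.mem_map]; exact ⟨i, hi, rfl⟩)]

end

section

variable {G H I X : Type} [AddCommGroup G] [AddCommGroup H] [Fintype G] [Fintype X]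

/-- The number of the members of a population which are not independent of the queries `W`. -/
noncomputable def hits (ev : I → G →+ H) (pop : X → G → Prop) (q : X → G → List I)
    (kn : List (I × H)) (W : List I) : ℕ :=
  cnt (fun p : X × G => Cons ev kn p.2 ∧ pop p.1 p.2 ∧
    ¬ Free (KN ev kn) (Ann ev (q p.1 p.2)) (Ann ev W))

theorem exists_best (ev : I → G →+ H) (pop : X → G → Prop) (q : X → G → List I) (D : ℕ)
    (kn : List (I × H)) : ∃ W : List I, W.length ≤ D ∧
      ∀ W' : List I, W'.length ≤ D → hits ev pop q kn W' ≤ hits ev pop q kn W := by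
  obtain ⟨S, hS⟩ : ∃ S : Set ℕ, S = {n | ∃ W : List I, W.length ≤ D ∧ hits ev pop q kn W = n} :=
    ⟨_, rfl⟩
  have h1 : S.Nonempty := ⟨_, by rw [hS]; exact ⟨[], by simp, rfl⟩⟩
  have h2 : BddAbove S := by
    refine ⟨Fintype.card (X × G), ?_⟩
    intro n hn
    rw [hS] at hn
    obtain ⟨W, _, rfl⟩ := hn
    exact cnt_le_card _
  have h3 := Nat.sSup_mem h1 h2
  rw [hS] at h3
  obtain ⟨W, hW, h4⟩ := h3
  refine ⟨W, hW, fun W' hW' => ?_⟩
  rw [h4, ← hS]
  exact le_csSup h2 (by rw [hS]; exact ⟨W', hW', rfl⟩)

/-- The queries which are not independent of the largest part of the population. -/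
noncomputable def best (ev : I → G →+ H) (pop : X → G → Prop) (q : X → G → List I) (D : ℕ)
    (kn : List (I × H)) : List I := (exists_best ev pop q D kn).choose

theorem best_length (ev : I → G →+ H) (pop : X → G → Prop) (q : X → G → List I) (D : ℕ)
    (kn : List (I × H)) : (best ev pop q D kn).length ≤ D :=
  (exists_best ev pop q D kn).choose_spec.1

theorem best_spec (ev : I → G →+ H) (pop : X → G → Prop) (q : X → G → List I) (D : ℕ)
    (kn : List (I × H)) (W : List I) (hW : W.length ≤ D) :
    hits ev pop q kn W ≤ hits ev pop q kn (best ev pop q D kn) :=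
  (exists_best ev pop q D kn).choose_spec.2 W hW

/-- The knowledge of Eve after some rounds. -/
noncomputable def know (ev : I → G →+ H) (pop : X → G → Prop) (q : X → G → List I) (D : ℕ) :
    ℕ → List (I × H) → G → List (I × H)
  | 0, kn, _ => kn
  | n + 1, kn, f => know ev pop q D n (kn ++ ans ev (best ev pop q D kn) f) f

/-- The algorithm which asks for some rounds and then continues. -/
noncomputable def sat {J : Type} (ev : I → G →+ H) (pop : X → G → Prop) (q : X → G → List I)
    (D : ℕ) (c : List (I × H) → Alg I H J) : ℕ → List (I × H) → Alg I H J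
  | 0, kn => c kn
  | n + 1, kn => askList (best ev pop q D kn) (fun r => sat ev pop q D c n (kn ++ r))

variable (ev : I → G →+ H) (pop : X → G → Prop) (q : X → G → List I) (D : ℕ)

theorem sat_spec {J : Type} (c : List (I × H) → Alg I H J) (f : G) : ∀ (n : ℕ) (kn : List (I × H)),
    (sat ev pop q D c n kn).out (fun i => ev i f) =
      (c (know ev pop q D n kn f)).out (fun i => ev i f) ∧
    (sat ev pop q D c n kn).cost (fun i => ev i f) ≤
      n * D + (c (know ev pop q D n kn f)).cost (fun i => ev i f) := by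
  intro n
  induction n with
  | zero => intro kn; simp [sat, know]
  | succ n ih =>
    intro kn
    have h1 := askList_spec (fun i => ev i f) (best ev pop q D kn)
      (fun r => sat ev pop q D c n (kn ++ r))
    have h2 := ih (kn ++ ans ev (best ev pop q D kn) f)
    rw [sat, know, h1.1, h1.2]
    refine ⟨h2.1, ?_⟩
    have h3 := best_length ev pop q D kn
    have h4 := h2.2
    rw [ans] at h4
    have h5 : (n + 1) * D = n * D + D := by ring
    rw [ans]
    omega

theorem know_new (f : G) : ∀ (n : ℕ) (kn : List (I × H)),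
    ∃ new, know ev pop q D n kn f = kn ++ new ∧ new.length ≤ n * D ∧ Cons ev new f := by
  intro n
  induction n with
  | zero =>
    intro kn
    exact ⟨[], by simp [know], by simp, by simp [Cons]⟩
  | succ n ih =>
    intro kn
    obtain ⟨new, h1, h2, h3⟩ := ih (kn ++ ans ev (best ev pop q D kn) f)
    refine ⟨ans ev (best ev pop q D kn) f ++ new, ?_, ?_, ?_⟩
    · rw [know, h1, List.append_assoc]
    · have h4 := best_length ev pop q D kn
      have h5 : (n + 1) * D = n * D + D := by ring
      rw [List.length_append, ans, List.length_map]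
      omega
    · rw [cons_append]
      exact ⟨cons_ans _ _, h3⟩

theorem know_const {f g : G} : ∀ (n : ℕ) (kn : List (I × H)),
    Cons ev (know ev pop q D n kn f) g →
      know ev pop q D n kn g = know ev pop q D n kn f := by
  intro n
  induction n with
  | zero => intro kn _; rfl
  | succ n ih =>
    intro kn h
    rw [know] at h
    have h' := h
    obtain ⟨new, h1, h2, h3⟩ := know_new ev pop q D f n (kn ++ ans ev (best ev pop q D kn) f)
    rw [h1, cons_append, cons_append] at h
    rw [know, know, ans_congr h.1.2]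
    exact ih _ h'

/-- The event that the queries of the round are not independent of the member. -/
def Hit (kn : List (I × H)) (x : X) (f : G) : Prop :=
  ¬ Free (KN ev kn) (Ann ev (q x f)) (Ann ev (best ev pop q D kn))

theorem pot (x : X) (f : G) : ∀ (n : ℕ) (kn : List (I × H)),
    2 ^ (∑ j ∈ range n, if Hit ev pop q D (know ev pop q D j kn f) x f then 1 else 0) ≤
      (Ann ev (q x f)).relIndex (KN ev kn) := by
  intro n
  induction n with
  | zero =>
    intro kn
    have h1 : (Ann ev (q x f)).relIndex (KN ev kn) ≠ 0 := AddSubgroup.FiniteIndex.index_ne_zero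
    simp only [range_zero, sum_empty, pow_zero]
    omega
  | succ n ih =>
    intro kn
    have h1 := ih (kn ++ ans ev (best ev pop q D kn) f)
    rw [KN_append, KN_ans] at h1
    rw [sum_range_succ']
    change 2 ^ ((∑ j ∈ range n, if Hit ev pop q D
      (know ev pop q D j (kn ++ ans ev (best ev pop q D kn) f) f) x f then 1 else 0) +
      if Hit ev pop q D kn x f then 1 else 0) ≤ _
    split_ifs with h
    · rw [pow_succ, mul_comm]
      have h2 : (KN ev kn ⊓ Ann ev (best ev pop q D kn)) ⊔ (KN ev kn ⊓ Ann ev (q x f)) ≠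
          KN ev kn := by
        rw [sup_comm]
        exact h
      exact (Nat.mul_le_mul_left 2 h1).trans (drop h2)
    · rw [add_zero]
      exact h1.trans (relIndex_mono inf_le_left)

theorem sum_hit_le [Finite H] (B : ℕ) (hB : ∀ x f, (q x f).length ≤ B) (x : X) (f : G) (n : ℕ)
    (kn : List (I × H)) :
    (∑ j ∈ range n, if Hit ev pop q D (know ev pop q D j kn f) x f then 1 else 0) ≤
      B * Nat.clog 2 (Nat.card H) := by
  have h1 := pot ev pop q D x f n kn
  have h2 : (Ann ev (q x f)).relIndex (KN ev kn) ≤ (Ann ev (q x f)).index := by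
    rw [← AddSubgroup.relIndex_top_right]
    exact relIndex_mono le_top
  have h3 := index_Ann_le ev (q x f)
  have h4 : Nat.card H ≤ 2 ^ Nat.clog 2 (Nat.card H) := Nat.le_pow_clog (by norm_num) _
  have h5 : 2 ^ (∑ j ∈ range n, if Hit ev pop q D (know ev pop q D j kn f) x f then 1 else 0) ≤
      2 ^ (B * Nat.clog 2 (Nat.card H)) := by
    calc _ ≤ Nat.card H ^ (q x f).length := h1.trans (h2.trans h3)
      _ ≤ (2 ^ Nat.clog 2 (Nat.card H)) ^ (q x f).length := Nat.pow_le_pow_left h4 _
      _ = 2 ^ ((q x f).length * Nat.clog 2 (Nat.card H)) := by rw [← pow_mul, mul_comm]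
      _ ≤ 2 ^ (B * Nat.clog 2 (Nat.card H)) :=
        Nat.pow_le_pow_right (by norm_num) (Nat.mul_le_mul_right _ (hB x f))
  exact (Nat.pow_le_pow_iff_right (by norm_num)).1 h5

theorem stage [Finite H] (B L : ℕ) (hB : ∀ x f, (q x f).length ≤ B) (hL : 0 < L)
    (kn : List (I × H)) :
    ∃ T : G → List (I × H),
      (∀ (J : Type) (c : List (I × H) → Alg I H J), ∃ P : Alg I H J, ∀ f,
        P.out (fun i => ev i f) = (c (T f)).out (fun i => ev i f) ∧
        P.cost (fun i => ev i f) ≤ L * D + (c (T f)).cost (fun i => ev i f)) ∧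
      (∀ f, ∃ new, T f = kn ++ new ∧ new.length ≤ L * D ∧ Cons ev new f) ∧
      (∀ f g, Cons ev (T f) g → T g = T f) ∧
      L * cnt (fun p : X × G => (Cons ev kn p.2 ∧ pop p.1 p.2) ∧
        Hit ev pop q D (T p.2) p.1 p.2) ≤
        B * Nat.clog 2 (Nat.card H) * cnt (fun p : X × G => Cons ev kn p.2 ∧ pop p.1 p.2) := by
  obtain ⟨N, hN⟩ : ∃ N, N = B * Nat.clog 2 (Nat.card H) := ⟨_, rfl⟩
  have hsum : ∑ j ∈ range L, L * cnt (fun p : X × G => (Cons ev kn p.2 ∧ pop p.1 p.2) ∧
        Hit ev pop q D (know ev pop q D j kn p.2) p.1 p.2) ≤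
      ∑ j ∈ range L, N * cnt (fun p : X × G => Cons ev kn p.2 ∧ pop p.1 p.2) := by
    rw [sum_const, card_range, smul_eq_mul, ← mul_sum]
    apply Nat.mul_le_mul_left
    simp only [cnt_eq_sum]
    rw [sum_comm, mul_sum]
    apply sum_le_sum
    intro p _
    by_cases hp : Cons ev kn p.2 ∧ pop p.1 p.2
    · simp only [hp, true_and, if_true, mul_one, and_self]
      rw [hN]
      exact sum_hit_le ev pop q D B hB p.1 p.2 L kn
    · simp [hp]
  obtain ⟨j, hj, hle⟩ := exists_le_of_sum_le (nonempty_range_iff.2 (by omega)) hsum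
  have hjL : j ≤ L := (mem_range.1 hj).le
  refine ⟨know ev pop q D j kn, ?_, ?_, ?_, ?_⟩
  · intro J c
    refine ⟨sat ev pop q D c j kn, fun f => ?_⟩
    have h := sat_spec ev pop q D c f j kn
    exact ⟨h.1, h.2.trans (Nat.add_le_add_right (Nat.mul_le_mul_right _ hjL) _)⟩
  · intro f
    obtain ⟨new, h1, h2, h3⟩ := know_new ev pop q D f j kn
    exact ⟨new, h1, h2.trans (Nat.mul_le_mul_right _ hjL), h3⟩
  · intro f g h
    exact know_const ev pop q D j kn h
  · rw [← hN]
    exact hle

end

end Pool.Agent.W2helper50.KB
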