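import Pool.Agent.W2helper50.KB.Fixed

/-!
# From the real executions to two independent parties
-/

set_option autoImplicit false

namespace Pool.Agent.W2helper50.KB

open Finset Classical Pool.Agent.W2helper50.KA

variable {G H I RA RB : Type} [AddCommGroup G] [AddCommGroup H] [Fintype G] [Fintype RA]
  [Fintype RB]

/-- Decoupling, with the coins of the parties. -/
theorem decouple_coins (ev : I → G →+ H) (kn₁ : List (I × H)) (SA : RA → G → Prop)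
    (qa : RA → G → List I) (V : RB → G → List I) (wr : RB → G → Prop)
    (hA : ∀ r f g, g - f ∈ Ann ev (qa r f) → qa r g = qa r f ∧ (SA r g ↔ SA r f))
    (hV : ∀ s f g, Cons ev kn₁ f → g - f ∈ KN ev kn₁ → g - f ∈ Ann ev (V s f) →
      V s g = V s f ∧ (wr s g ↔ wr s f)) :
    cnt (fun p : RA × RB × G => (Cons ev kn₁ p.2.2 ∧ SA p.1 p.2.2) ∧ wr p.2.1 p.2.2 ∧
      Free (KN ev kn₁) (Ann ev (qa p.1 p.2.2)) (Ann ev (V p.2.1 p.2.2))) *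
        Nat.card (KN ev kn₁) =
    cnt (fun p : (RA × G) × (RB × G) => (Cons ev kn₁ p.1.2 ∧ SA p.1.1 p.1.2) ∧
      (Cons ev kn₁ p.2.2 ∧ wr p.2.1 p.2.2) ∧
      Free (KN ev kn₁) (Ann ev (qa p.1.1 p.1.2)) (Ann ev (V p.2.1 p.2.2))) := by
  have e1 : cnt (fun p : (RA × G) × (RB × G) => (Cons ev kn₁ p.1.2 ∧ SA p.1.1 p.1.2) ∧
      (Cons ev kn₁ p.2.2 ∧ wr p.2.1 p.2.2) ∧
      Free (KN ev kn₁) (Ann ev (qa p.1.1 p.1.2)) (Ann ev (V p.2.1 p.2.2))) =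
      ∑ r, ∑ s, cnt (fun p : G × G => (Cons ev kn₁ p.1 ∧ SA r p.1) ∧
      (Cons ev kn₁ p.2 ∧ wr s p.2) ∧
      Free (KN ev kn₁) (Ann ev (qa r p.1)) (Ann ev (V s p.2))) := by
    simp only [cnt_eq_sum, Fintype.sum_prod_type]
    apply sum_congr rfl
    intro r _
    rw [sum_comm]
  rw [e1, cnt_prod, sum_mul]
  apply sum_congr rfl
  intro r _
  rw [cnt_prod, sum_mul]
  apply sum_congr rfl
  intro s _
  rw [← decouple (KN ev kn₁) (fun f => Ann ev (qa r f)) (fun g => Ann ev (V s g))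
    (fun f g => (Cons ev kn₁ f ∧ SA r f) ∧ (Cons ev kn₁ g ∧ wr s g) ∧
      Free (KN ev kn₁) (Ann ev (qa r f)) (Ann ev (V s g)))
    (by
      intro f g h
      exact (cons_iff h.2.1.1 f).1 h.1.1)
    (by
      intro f g h
      exact h.2.2)
    (by
      intro f g h u hu v hv
      obtain ⟨h2, h3⟩ := hA r f (f + u) (by rw [add_sub_cancel_left]; exact hu.2)
      obtain ⟨h4, h5⟩ := hV s g (g + v) h.2.1.1 (by rw [add_sub_cancel_left]; exact hv.1)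
        (by rw [add_sub_cancel_left]; exact hv.2)
      refine ⟨⟨⟨?_, h3.2 h.1.2⟩, ⟨?_, h5.2 h.2.1.2⟩, ?_⟩, ?_, ?_⟩
      · rw [cons_iff h.1.1, add_sub_cancel_left]
        exact hu.1
      · rw [cons_iff h.2.1.1, add_sub_cancel_left]
        exact hv.1
      · rw [h2, h4]
        exact h.2.2
      · rw [h2]
      · rw [h4])]
  congr 1
  apply cnt_congr
  intro f
  constructor
  · rintro ⟨h1, h2, h3⟩
    exact ⟨h1, ⟨h1.1, h2⟩, h3⟩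
  · rintro ⟨h1, ⟨_, h2⟩, h3⟩
    exact ⟨h1, h2, h3⟩

theorem transfer (ev : I → G →+ H) (kn₁ : List (I × H)) (f₁ : G) (hf₁ : Cons ev kn₁ f₁)
    (SA : RA → G → Prop) (qa : RA → G → List I) (V : RB → G → List I) (wr : RB → G → Prop)
    (D₁ h₁ : ℕ)
    (hA : ∀ r f g, g - f ∈ Ann ev (qa r f) → qa r g = qa r f ∧ (SA r g ↔ SA r f))
    (hV : ∀ s f g, Cons ev kn₁ f → g - f ∈ KN ev kn₁ → g - f ∈ Ann ev (V s f) →
      V s g = V s f ∧ (wr s g ↔ wr s f))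
    (hlenV : ∀ s f, Cons ev kn₁ f → (V s f).length ≤ D₁)
    (hh₁ : ∀ W : List I, W.length ≤ D₁ → hits ev SA qa kn₁ W ≤ h₁) :
    cnt (fun p : RA × RB × G => (Cons ev kn₁ p.2.2 ∧ SA p.1 p.2.2) ∧ wr p.2.1 p.2.2) *
        Nat.card (KN ev kn₁) ≤
      cnt (fun p : RA × G => Cons ev kn₁ p.2 ∧ SA p.1 p.2) *
        cnt (fun p : RB × G => Cons ev kn₁ p.2 ∧ wr p.1 p.2) +
      Fintype.card RB * h₁ * Nat.card (KN ev kn₁) := by
  obtain ⟨k₁, hk₁⟩ : ∃ k₁, k₁ = Nat.card (KN ev kn₁) := ⟨_, rfl⟩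
  have h0 : cnt (fun p : RB × G => Cons ev kn₁ p.2) = Fintype.card RB * k₁ := by
    rw [cnt_prod]
    dsimp only
    rw [sum_const, card_univ, smul_eq_mul]
    congr 1
    rw [hk₁]
    exact cnt_cons hf₁
  -- the executions in which the two parties are independent
  have h1 := decouple_coins ev kn₁ SA qa V wr hA hV
  have h2 := decouple_coins ev kn₁ SA qa V (fun _ _ => True) hA
    (fun s f g ha hb hc => ⟨(hV s f g ha hb hc).1, Iff.rfl⟩)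
  have h3 : cnt (fun p : (RA × G) × (RB × G) => (Cons ev kn₁ p.1.2 ∧ SA p.1.1 p.1.2) ∧
      (Cons ev kn₁ p.2.2 ∧ wr p.2.1 p.2.2) ∧
      Free (KN ev kn₁) (Ann ev (qa p.1.1 p.1.2)) (Ann ev (V p.2.1 p.2.2))) ≤
      cnt (fun p : RA × G => Cons ev kn₁ p.2 ∧ SA p.1 p.2) *
        cnt (fun p : RB × G => Cons ev kn₁ p.2 ∧ wr p.1 p.2) := by
    rw [← cnt_pair]
    exact cnt_mono fun p hp => ⟨hp.1, hp.2.1⟩
  -- the others
  have h4 : cnt (fun p : RA × RB × G => (Cons ev kn₁ p.2.2 ∧ SA p.1 p.2.2) ∧ True ∧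
      Free (KN ev kn₁) (Ann ev (qa p.1 p.2.2)) (Ann ev (V p.2.1 p.2.2))) +
      cnt (fun p : RA × RB × G => (Cons ev kn₁ p.2.2 ∧ SA p.1 p.2.2) ∧
      ¬ Free (KN ev kn₁) (Ann ev (qa p.1 p.2.2)) (Ann ev (V p.2.1 p.2.2))) =
      cnt (fun p : RA × G => Cons ev kn₁ p.2 ∧ SA p.1 p.2) * Fintype.card RB := by
    have e1 : cnt (fun p : RA × RB × G => Cons ev kn₁ p.2.2 ∧ SA p.1 p.2.2) =
        cnt (fun p : RA × G => Cons ev kn₁ p.2 ∧ SA p.1 p.2) * Fintype.card RB := by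
      rw [cnt_prod, cnt_prod (fun p : RA × G => _), sum_mul]
      apply sum_congr rfl
      intro r _
      rw [cnt_prod]
      dsimp only
      rw [sum_const, card_univ, smul_eq_mul, mul_comm]
    rw [← e1, cnt_split (fun p : RA × RB × G => Cons ev kn₁ p.2.2 ∧ SA p.1 p.2.2)
      (fun p => Free (KN ev kn₁) (Ann ev (qa p.1 p.2.2)) (Ann ev (V p.2.1 p.2.2)))]
    congr 1
    apply cnt_congr
    intro p
    simp
  have h5 : cnt (fun p : (RA × G) × (RB × G) => (Cons ev kn₁ p.1.2 ∧ SA p.1.1 p.1.2) ∧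
      (Cons ev kn₁ p.2.2 ∧ True) ∧
      Free (KN ev kn₁) (Ann ev (qa p.1.1 p.1.2)) (Ann ev (V p.2.1 p.2.2))) +
      cnt (fun p : (RA × G) × (RB × G) => ((Cons ev kn₁ p.1.2 ∧ SA p.1.1 p.1.2) ∧
      Cons ev kn₁ p.2.2) ∧
      ¬ Free (KN ev kn₁) (Ann ev (qa p.1.1 p.1.2)) (Ann ev (V p.2.1 p.2.2))) =
      cnt (fun p : RA × G => Cons ev kn₁ p.2 ∧ SA p.1 p.2) * (Fintype.card RB * k₁) := by
    rw [← h0, ← cnt_pair, cnt_split (fun p : (RA × G) × (RB × G) =>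
      (Cons ev kn₁ p.1.2 ∧ SA p.1.1 p.1.2) ∧ Cons ev kn₁ p.2.2)
      (fun p => Free (KN ev kn₁) (Ann ev (qa p.1.1 p.1.2)) (Ann ev (V p.2.1 p.2.2)))]
    congr 1
    apply cnt_congr
    intro p
    simp [and_assoc]
  have h6 : cnt (fun p : (RA × G) × (RB × G) => ((Cons ev kn₁ p.1.2 ∧ SA p.1.1 p.1.2) ∧
      Cons ev kn₁ p.2.2) ∧
      ¬ Free (KN ev kn₁) (Ann ev (qa p.1.1 p.1.2)) (Ann ev (V p.2.1 p.2.2))) ≤
      Fintype.card RB * h₁ * k₁ := by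
    rw [cnt_prod']
    have e2 : ∀ q : RB × G, cnt (fun a : RA × G => ((Cons ev kn₁ a.2 ∧ SA a.1 a.2) ∧
        Cons ev kn₁ q.2) ∧
        ¬ Free (KN ev kn₁) (Ann ev (qa a.1 a.2)) (Ann ev (V q.1 q.2))) ≤
        (if Cons ev kn₁ q.2 then 1 else 0) * h₁ := by
      rintro ⟨s, g⟩
      dsimp only
      split_ifs with hg
      · rw [one_mul]
        refine le_trans (cnt_mono ?_) (hh₁ (V s g) (hlenV s g hg))
        rintro ⟨r, f⟩ h
        exact ⟨h.1.1.1, h.1.1.2, h.2⟩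
      · rw [zero_mul, Nat.le_zero]
        apply cnt_false
        intro a h
        exact hg h.1.2
    refine (sum_le_sum (fun q _ => e2 q)).trans ?_
    rw [← sum_mul, ← cnt_eq_sum (fun q : RB × G => Cons ev kn₁ q.2), h0]
    apply le_of_eq
    ring
  have h7 : cnt (fun p : RA × RB × G => (Cons ev kn₁ p.2.2 ∧ SA p.1 p.2.2) ∧ wr p.2.1 p.2.2) ≤
      cnt (fun p : RA × RB × G => (Cons ev kn₁ p.2.2 ∧ SA p.1 p.2.2) ∧ wr p.2.1 p.2.2 ∧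
      Free (KN ev kn₁) (Ann ev (qa p.1 p.2.2)) (Ann ev (V p.2.1 p.2.2))) +
      cnt (fun p : RA × RB × G => (Cons ev kn₁ p.2.2 ∧ SA p.1 p.2.2) ∧
      ¬ Free (KN ev kn₁) (Ann ev (qa p.1 p.2.2)) (Ann ev (V p.2.1 p.2.2))) := by
    rw [cnt_split _
      (fun p => Free (KN ev kn₁) (Ann ev (qa p.1 p.2.2)) (Ann ev (V p.2.1 p.2.2)))]
    apply Nat.add_le_add
    · exact cnt_mono fun p hp => ⟨hp.1.1, hp.1.2, hp.2⟩
    · exact cnt_mono fun p hp => ⟨hp.1.1, hp.2⟩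
  rw [← hk₁] at h1 h2 ⊢
  generalize cnt (fun p : RA × RB × G => (Cons ev kn₁ p.2.2 ∧ SA p.1 p.2.2) ∧
    wr p.2.1 p.2.2) = a1 at *
  generalize cnt (fun p : RA × RB × G => (Cons ev kn₁ p.2.2 ∧ SA p.1 p.2.2) ∧ wr p.2.1 p.2.2 ∧
      Free (KN ev kn₁) (Ann ev (qa p.1 p.2.2)) (Ann ev (V p.2.1 p.2.2))) = a2 at *
  generalize cnt (fun p : RA × RB × G => (Cons ev kn₁ p.2.2 ∧ SA p.1 p.2.2) ∧ True ∧
      Free (KN ev kn₁) (Ann ev (qa p.1 p.2.2)) (Ann ev (V p.2.1 p.2.2))) = a3 at *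
  generalize cnt (fun p : RA × RB × G => (Cons ev kn₁ p.2.2 ∧ SA p.1 p.2.2) ∧
      ¬ Free (KN ev kn₁) (Ann ev (qa p.1 p.2.2)) (Ann ev (V p.2.1 p.2.2))) = a4 at *
  generalize cnt (fun p : (RA × G) × (RB × G) => (Cons ev kn₁ p.1.2 ∧ SA p.1.1 p.1.2) ∧
      (Cons ev kn₁ p.2.2 ∧ wr p.2.1 p.2.2) ∧
      Free (KN ev kn₁) (Ann ev (qa p.1.1 p.1.2)) (Ann ev (V p.2.1 p.2.2))) = b1 at *
  generalize cnt (fun p : (RA × G) × (RB × G) => (Cons ev kn₁ p.1.2 ∧ SA p.1.1 p.1.2) ∧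
      (Cons ev kn₁ p.2.2 ∧ True) ∧
      Free (KN ev kn₁) (Ann ev (qa p.1.1 p.1.2)) (Ann ev (V p.2.1 p.2.2))) = b2 at *
  generalize cnt (fun p : (RA × G) × (RB × G) => ((Cons ev kn₁ p.1.2 ∧ SA p.1.1 p.1.2) ∧
      Cons ev kn₁ p.2.2) ∧
      ¬ Free (KN ev kn₁) (Ann ev (qa p.1.1 p.1.2)) (Ann ev (V p.2.1 p.2.2))) = b3 at *
  generalize cnt (fun p : RA × G => Cons ev kn₁ p.2 ∧ SA p.1 p.2) = n₁ at *
  generalize cnt (fun p : RB × G => Cons ev kn₁ p.2 ∧ wr p.1 p.2) = w at *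
  have h8 : a4 * k₁ = b3 := by
    have h9 : (a3 + a4) * k₁ = b2 + b3 := by
      rw [h4, h5]
      ring
    rw [add_mul, h2] at h9
    exact Nat.add_left_cancel h9
  calc a1 * k₁ ≤ (a2 + a4) * k₁ := Nat.mul_le_mul_right _ h7
    _ = b1 + b3 := by rw [add_mul, h1, h8]
    _ ≤ n₁ * w + Fintype.card RB * h₁ * k₁ := Nat.add_le_add h3 h6

end Pool.Agent.W2helper50.KB
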